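import Mathlib

/-!
The sparse sequence of moduli: `q n` is the power `2 ^ e` where `4 ^ e` is the largest power of `4`
dividing `n` (for `n > 0`).
-/

set_option autoImplicit false

namespace Pool.Agent.MPa4afae

/-- `q n = 2 ^ e` with `4 ^ e` the largest power of `4` dividing `n` (for `n > 0`). -/
def q : ℕ → ℕ
  | 0 => 1
  | (n + 1) => if 4 ∣ (n + 1) then 2 * q ((n + 1) / 4) else 1
termination_by n => n
decreasing_by exact Nat.div_lt_self (Nat.succ_pos n) (by norm_num)

theorem q_zero : q 0 = 1 := by rw [q]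

theorem q_of_not_dvd {n : ℕ} (h : ¬ 4 ∣ n) : q n = 1 := by
  cases n with
  | zero => simp at h
  | succ n => rw [q, if_neg h]

theorem q_of_dvd {n : ℕ} (hn : 0 < n) (h : 4 ∣ n) : q n = 2 * q (n / 4) := by
  cases n with
  | zero => simp at hn
  | succ n => rw [q, if_pos h]

theorem q_pow (n : ℕ) : ∃ s, q n = 2 ^ s := by
  induction n using Nat.strong_induction_on with
  | _ n ih =>
    rcases Nat.eq_zero_or_pos n with rfl | hn
    · exact ⟨0, q_zero⟩
    · by_cases h : 4 ∣ n
      · obtain ⟨s, hs⟩ := ih (n / 4) (Nat.div_lt_self hn (by norm_num))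
        exact ⟨s + 1, by rw [q_of_dvd hn h, hs, pow_succ]; ring⟩
      · exact ⟨0, by rw [q_of_not_dvd h, pow_zero]⟩

theorem q_pos (n : ℕ) : 0 < q n := by
  obtain ⟨s, hs⟩ := q_pow n
  rw [hs]; positivity

theorem le_q_of_dvd (r n : ℕ) (hn : 0 < n) (h : 4 ^ r ∣ n) : 2 ^ r ≤ q n := by
  induction r generalizing n with
  | zero =>
    have := q_pos n
    simp only [pow_zero]
    omega
  | succ r ih =>
    have h4 : 4 ∣ n := dvd_trans (dvd_pow_self 4 (Nat.succ_ne_zero r)) h
    rw [q_of_dvd hn h4, pow_succ, mul_comm]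
    obtain ⟨m, rfl⟩ := h4
    have hm : 0 < m := by omega
    rw [Nat.mul_div_cancel_left m (by norm_num)]
    refine Nat.mul_le_mul_left 2 (ih m hm ?_)
    rw [pow_succ, mul_comm] at h
    exact Nat.dvd_of_mul_dvd_mul_left (by norm_num) h

theorem sum_q_eq (k : ℕ) :
    ∑ i ∈ Finset.range k, q (i + 1) + k / 4 = k + 2 * ∑ i ∈ Finset.range (k / 4), q (i + 1) := by
  induction k with
  | zero => simp
  | succ k ih =>
    rw [Finset.sum_range_succ]
    by_cases h : 4 ∣ (k + 1)
    · have h1 : (k + 1) / 4 = k / 4 + 1 := by omega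
      have h2 := q_of_dvd (show 0 < k + 1 by omega) h
      rw [h1] at h2
      rw [h1, Finset.sum_range_succ]
      omega
    · have h1 : (k + 1) / 4 = k / 4 := by omega
      have h2 := q_of_not_dvd h
      rw [h1, h2]
      omega

theorem sum_q_le (k : ℕ) : ∑ i ∈ Finset.range k, q (i + 1) ≤ 2 * k := by
  induction k using Nat.strong_induction_on with
  | _ k ih =>
    rcases Nat.eq_zero_or_pos k with rfl | hk
    · simp
    · have h1 := ih (k / 4) (Nat.div_lt_self hk (by norm_num))
      have h2 := sum_q_eq k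
      omega

/-- `D k` is the total weight of the first `k` levels. -/
def D (k : ℕ) : ℕ := ∑ i ∈ Finset.range k, 4 * q (i + 1)

theorem D_zero : D 0 = 0 := rfl

theorem D_succ (k : ℕ) : D (k + 1) = D k + 4 * q (k + 1) := by
  rw [D, Finset.sum_range_succ, D]

theorem D_le (k : ℕ) : D k ≤ 8 * k := by
  have := sum_q_le k
  rw [D, ← Finset.mul_sum]
  omega

/-- In every window of `4 ^ r` consecutive levels there is one with `q ≥ 2 ^ r`. -/
theorem exists_level (r l : ℕ) : ∃ t < 4 ^ r, 2 ^ r ≤ q (l + t + 1) := by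
  have hpos : 0 < 4 ^ r := by positivity
  refine ⟨4 ^ r - 1 - l % 4 ^ r, ?_, ?_⟩
  · omega
  · refine le_q_of_dvd r _ (by omega) ?_
    have h1 : l % 4 ^ r < 4 ^ r := Nat.mod_lt _ hpos
    have h2 : l + (4 ^ r - 1 - l % 4 ^ r) + 1 = 4 ^ r * (l / 4 ^ r) + 4 ^ r := by
      have := Nat.div_add_mod l (4 ^ r)
      omega
    rw [h2]
    exact Dvd.intro (l / 4 ^ r + 1) (by ring)

end Pool.Agent.MPa4afae
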