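import Mathlib

/-!
For a finitely generated group the quotients of the group algebra by the powers of the
augmentation ideal are finite-dimensional.
-/

set_option autoImplicit false

namespace Pool.Agent.MPa4afae

variable (k : Type) [Field k] (G : Type) [Group G]

/-- The span of the elements `g - 1`. -/
noncomputable def aug : Submodule k (MonoidAlgebra k G) :=
  Submodule.span k (Set.range (fun g : G => MonoidAlgebra.of k G g - 1))

variable {k G}

theorem of_sub_one_mem (g : G) : MonoidAlgebra.of k G g - 1 ∈ aug k G :=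
  Submodule.subset_span ⟨g, rfl⟩

theorem top_le_one_sup_aug : (⊤ : Submodule k (MonoidAlgebra k G)) ≤ 1 ⊔ aug k G := by
  intro x _
  induction x using MonoidAlgebra.induction_on with
  | of g =>
    have : MonoidAlgebra.of k G g = 1 + (MonoidAlgebra.of k G g - 1) := by abel
    rw [this]
    exact Submodule.add_mem_sup (Submodule.one_le.1 le_rfl) (of_sub_one_mem g)
  | add f g hf hg => exact Submodule.add_mem _ (hf trivial) (hg trivial)
  | smul r f hf => exact Submodule.smul_mem _ r (hf trivial)

theorem aug_le (S : Set G) (hS : Subgroup.closure S = ⊤) :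
    aug k G ≤ Submodule.span k ((fun g : G => MonoidAlgebra.of k G g - 1) '' S) ⊔ aug k G ^ 2 := by
  rw [aug, Submodule.span_le]
  rintro _ ⟨g, rfl⟩
  have hg : g ∈ Subgroup.closure S := by rw [hS]; trivial
  have hmul : ∀ x y : G, (MonoidAlgebra.of k G x - 1) * (MonoidAlgebra.of k G y - 1) ∈
      (aug k G) ^ 2 := by
    intro x y
    rw [pow_two]
    exact Submodule.mul_mem_mul (of_sub_one_mem x) (of_sub_one_mem y)
  change MonoidAlgebra.of k G g - 1 ∈
    Submodule.span k ((fun g : G => MonoidAlgebra.of k G g - 1) '' S) ⊔ aug k G ^ 2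
  induction hg using Subgroup.closure_induction with
  | mem s hs =>
    exact Submodule.mem_sup_left (Submodule.subset_span ⟨s, hs, rfl⟩)
  | one =>
    rw [map_one, sub_self]
    exact Submodule.zero_mem _
  | mul x y _ _ hx hy =>
    have : MonoidAlgebra.of k G (x * y) - 1 = (MonoidAlgebra.of k G x - 1) +
        (MonoidAlgebra.of k G y - 1) +
        (MonoidAlgebra.of k G x - 1) * (MonoidAlgebra.of k G y - 1) := by
      rw [map_mul]
      noncomm_ring
    rw [this]
    exact Submodule.add_mem _ (Submodule.add_mem _ hx hy) (Submodule.mem_sup_right (hmul x y))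
  | inv x _ hx =>
    have h1 : MonoidAlgebra.of k G x * MonoidAlgebra.of k G x⁻¹ = 1 := by
      rw [← map_mul, mul_inv_cancel, map_one]
    have : MonoidAlgebra.of k G (x⁻¹) - 1 = -(MonoidAlgebra.of k G x - 1) -
        (MonoidAlgebra.of k G x - 1) * (MonoidAlgebra.of k G x⁻¹ - 1) := by
      rw [sub_mul, mul_sub, h1]
      noncomm_ring
    rw [this]
    exact Submodule.sub_mem _ (Submodule.neg_mem _ hx) (Submodule.mem_sup_right (hmul x x⁻¹))

theorem exists_fg_top_le (hG : Group.FG G) (n : ℕ) :
    ∃ F : Submodule k (MonoidAlgebra k G), F.FG ∧ ⊤ ≤ F ⊔ aug k G ^ (n + 1) := by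
  obtain ⟨S, hS⟩ := hG.out
  let X : Submodule k (MonoidAlgebra k G) :=
    Submodule.span k ((fun g : G => MonoidAlgebra.of k G g - 1) '' (S : Set G))
  have hXfg : X.FG := by
    refine Submodule.fg_span ?_
    exact S.finite_toSet.image _
  have hXM : X ≤ aug k G := by
    refine Submodule.span_le.2 ?_
    rintro _ ⟨g, -, rfl⟩
    exact of_sub_one_mem g
  have hM : aug k G ≤ X ⊔ aug k G ^ 2 := aug_le (S : Set G) hS
  -- powers
  have hpow : ∀ i, aug k G ^ i ≤ X ^ i ⊔ aug k G ^ (i + 1) := by
    intro i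
    induction i with
    | zero =>
      simp only [pow_zero]
      exact le_sup_left
    | succ i ih =>
      calc aug k G ^ (i + 1) = aug k G ^ i * aug k G := pow_succ _ _
        _ ≤ (X ^ i ⊔ aug k G ^ (i + 1)) * aug k G := mul_le_mul' ih le_rfl
        _ = X ^ i * aug k G ⊔ aug k G ^ (i + 1) * aug k G := Submodule.sup_mul _ _ _
        _ ≤ X ^ i * (X ⊔ aug k G ^ 2) ⊔ aug k G ^ (i + 2) := by
            refine sup_le_sup (mul_le_mul' le_rfl hM) ?_
            rw [← pow_succ]
        _ = (X ^ i * X ⊔ X ^ i * aug k G ^ 2) ⊔ aug k G ^ (i + 2) := by rw [Submodule.mul_sup]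
        _ ≤ X ^ (i + 1) ⊔ aug k G ^ (i + 2) := by
            rw [← pow_succ]
            refine sup_le (sup_le le_sup_left ?_) le_sup_right
            refine le_trans ?_ le_sup_right
            rw [pow_add]
            exact mul_le_mul' (pow_le_pow_left' hXM i) le_rfl
  induction n with
  | zero =>
    refine ⟨1, ?_, ?_⟩
    · rw [Submodule.one_eq_span]
      exact Submodule.fg_span_singleton _
    · rw [zero_add, pow_one]
      exact top_le_one_sup_aug
  | succ n ih =>
    obtain ⟨F, hF, hle⟩ := ih
    refine ⟨F ⊔ X ^ (n + 1), hF.sup (hXfg.pow _), hle.trans ?_⟩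
    rw [sup_assoc]
    exact sup_le_sup le_rfl (hpow (n + 1))

theorem finite_quotient (hG : Group.FG G) (n : ℕ) :
    Module.Finite k (MonoidAlgebra k G ⧸ (aug k G ^ (n + 1))) := by
  obtain ⟨F, hF, hle⟩ := exists_fg_top_le (k := k) hG n
  rw [Module.finite_def]
  have : (⊤ : Submodule k (MonoidAlgebra k G ⧸ (aug k G ^ (n + 1)))) =
      F.map (Submodule.mkQ _) := by
    symm
    rw [eq_top_iff]
    intro x _
    obtain ⟨y, rfl⟩ := Submodule.mkQ_surjective _ x
    obtain ⟨a, ha, b, hb, rfl⟩ := Submodule.mem_sup.1 (hle (show y ∈ ⊤ from trivial))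
    refine ⟨a, ha, ?_⟩
    rw [map_add]
    have : (aug k G ^ (n + 1)).mkQ b = 0 := by simpa using hb
    rw [this, add_zero]
  rw [this]
  exact hF.map _

end Pool.Agent.MPa4afae
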