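import Mathlib
import Pool.Agent.Lib.MP_a4afae_al.Arith

/-!
The operators generating the example group, and local finiteness of the normal closure.
-/

set_option autoImplicit false

namespace Pool.Agent.MPa4afae

/-- Functions on pairs (binary word, integer) with values in the field with two elements. -/
abbrev V : Type := List Bool → ℤ → ZMod 2

/-- The endomorphism algebra of `V`. -/
abbrev E : Type := Module.End (ZMod 2) V

/-- Translation of the integer coordinate. -/
def shift (k : ℤ) : E where
  toFun φ := fun w j => φ w (j + k)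
  map_add' _ _ := rfl
  map_smul' _ _ := rfl

@[simp] theorem shift_apply (k : ℤ) (φ : V) (w : List Bool) (j : ℤ) :
    shift k φ w j = φ w (j + k) := rfl

/-- The gate `a` at level `l` is open at the position `j`. -/
def gate (l : ℕ) (a : Bool) (j : ℤ) : Prop :=
  (4 * (q (l + 1) : ℤ)) ∣ j - (2 * (q (l + 1) : ℤ) + (a.toNat : ℤ))

instance (l : ℕ) (a : Bool) (j : ℤ) : Decidable (gate l a j) := by
  unfold gate; infer_instance

theorem not_gate_of_abs_lt {l : ℕ} {a : Bool} {e : ℤ} (h : |e| < q (l + 1)) : ¬ gate l a e := by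
  intro hg
  unfold gate at hg
  have hq : 0 < q (l + 1) := q_pos _
  have ha : (a.toNat : ℤ) ≤ 1 := by exact_mod_cast Bool.toNat_le a
  have ha0 : (0 : ℤ) ≤ (a.toNat : ℤ) := by positivity
  rw [abs_lt] at h
  have h2 := Int.eq_zero_of_abs_lt_dvd hg (by rw [abs_lt]; constructor <;> omega)
  omega

theorem gate_add_period (l : ℕ) (a : Bool) (j : ℤ) :
    gate l a (j + 4 * (q (l + 1) : ℤ)) ↔ gate l a j := by
  unfold gate
  rw [show j + 4 * (q (l + 1) : ℤ) - (2 * (q (l + 1) : ℤ) + (a.toNat : ℤ)) =
    (j - (2 * (q (l + 1) : ℤ) + (a.toNat : ℤ))) + 4 * (q (l + 1) : ℤ) by ring]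
  exact dvd_add_self_right

/-- The operators `zop i`. -/
def zop (i : ℤ) : E where
  toFun φ := fun w j => ∑ a : Bool, if gate w.length a (j + i) then φ (a :: w) (-i) else 0
  map_add' φ ψ := by
    funext w j
    simp only [Pi.add_apply, ← Finset.sum_add_distrib]
    refine Finset.sum_congr rfl fun a _ => ?_
    split_ifs <;> simp
  map_smul' c φ := by
    funext w j
    simp only [Pi.smul_apply, RingHom.id_apply, Finset.smul_sum]
    refine Finset.sum_congr rfl fun a _ => ?_
    split_ifs <;> simp

theorem zop_apply (i : ℤ) (φ : V) (w : List Bool) (j : ℤ) :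
    zop i φ w j = ∑ a : Bool, if gate w.length a (j + i) then φ (a :: w) (-i) else 0 := rfl

theorem shift_mul_zop_mul_shift (i : ℤ) : shift i * zop 0 * shift (-i) = zop i := by
  ext φ w j
  simp only [Module.End.mul_apply, shift_apply, zop_apply, add_zero, neg_zero, zero_add]

theorem shift_add (a b : ℤ) : shift (a + b) = shift a * shift b := by
  ext φ w j
  simp only [Module.End.mul_apply, shift_apply]
  rw [add_assoc, add_comm a b]

theorem shift_zero : shift 0 = 1 := by
  ext φ w j
  simp

theorem zop_sq : zop 0 * zop 0 = 0 := by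
  ext φ w j
  rw [Module.End.mul_apply, zop_apply]
  simp only [LinearMap.zero_apply, Pi.zero_apply]
  refine Finset.sum_eq_zero fun a _ => ?_
  split_ifs with h
  · rw [zop_apply]
    refine Finset.sum_eq_zero fun b _ => ?_
    rw [if_neg]
    refine not_gate_of_abs_lt ?_
    have := q_pos ((a :: w).length + 1)
    simpa using this
  · rfl

theorem E_add_self (x : E) : x + x = 0 := by
  rw [← two_smul (ZMod 2) x]
  have : (2 : ZMod 2) = 0 := rfl
  rw [this, zero_smul]

/-- The involution `1 + z`. -/
def uU : Eˣ where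
  val := 1 + zop 0
  inv := 1 + zop 0
  val_inv := by
    rw [add_mul, mul_add, mul_add, zop_sq, one_mul, one_mul, mul_one, add_zero, add_assoc,
      E_add_self, add_zero]
  inv_val := by
    rw [add_mul, mul_add, mul_add, zop_sq, one_mul, one_mul, mul_one, add_zero, add_assoc,
      E_add_self, add_zero]

/-- The shift. -/
def tU : Eˣ where
  val := shift 1
  inv := shift (-1)
  val_inv := by rw [← shift_add, add_neg_cancel, shift_zero]
  inv_val := by rw [← shift_add, neg_add_cancel, shift_zero]

@[simp] theorem uU_val : (uU : E) = 1 + zop 0 := rfl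
@[simp] theorem uU_inv_val : ((uU⁻¹ : Eˣ) : E) = 1 + zop 0 := rfl
@[simp] theorem tU_val : (tU : E) = shift 1 := rfl
@[simp] theorem tU_inv_val : ((tU⁻¹ : Eˣ) : E) = shift (-1) := rfl

theorem tU_pow (n : ℕ) : ((tU ^ n : Eˣ) : E) = shift n := by
  induction n with
  | zero => simp [shift_zero]
  | succ n ih =>
    rw [pow_succ, Units.val_mul, ih, tU_val, ← shift_add]
    push_cast
    rfl

theorem tU_pow_inv (n : ℕ) : (((tU ^ n)⁻¹ : Eˣ) : E) = shift (-n) := by
  have h : (tU ^ n)⁻¹ = (tU⁻¹) ^ n := by rw [inv_pow]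
  rw [h]
  induction n with
  | zero => simp [shift_zero]
  | succ n ih =>
    rw [pow_succ, Units.val_mul, ih (by rw [inv_pow]), tU_inv_val, ← shift_add]
    push_cast
    congr 1
    ring

/-- Products of the operators `zop i`, `0 ≤ i < n`. -/
def zprod {n : ℕ} (L : List (Fin n)) : E := (L.map (fun i => zop (i : ℕ))).prod

theorem zprod_cons {n : ℕ} (i : Fin n) (L : List (Fin n)) :
    zprod (i :: L) = zop (i : ℕ) * zprod L := by
  simp [zprod]

theorem zprod_append {n : ℕ} (L L' : List (Fin n)) :
    zprod (L ++ L') = zprod L * zprod L' := by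
  simp [zprod]

theorem zprod_vanish {n : ℕ} (φ : V) (t : ℕ) : ∀ (L : List (Fin n)), t + 1 ≤ L.length →
    ∀ (w : List Bool) (i : Fin n), n ≤ q (w.length + t + 1) →
      zprod L φ w (-((i : ℕ) : ℤ)) = 0 := by
  induction t with
  | zero =>
    intro L hL w i hbad
    cases L with
    | nil => simp at hL
    | cons i' L' =>
      rw [zprod_cons, Module.End.mul_apply, zop_apply]
      refine Finset.sum_eq_zero fun a _ => ?_
      rw [if_neg]
      refine not_gate_of_abs_lt ?_
      have h1 := i.isLt
      have h2 := i'.isLt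
      rw [abs_lt]
      simp only [add_zero] at hbad
      constructor <;> omega
  | succ t ih =>
    intro L hL w i hbad
    cases L with
    | nil => simp at hL
    | cons i' L' =>
      rw [zprod_cons, Module.End.mul_apply, zop_apply]
      refine Finset.sum_eq_zero fun a _ => ?_
      split_ifs
      · refine ih L' ?_ (a :: w) i' ?_
        · simpa using hL
        · simp only [List.length_cons]
          rw [show w.length + 1 + t + 1 = w.length + (t + 1) + 1 by ring]
          exact hbad
      · rfl

theorem zprod_eq_zero {n : ℕ} (L : List (Fin n)) (hL : 4 ^ n + 1 ≤ L.length) : zprod L = 0 := by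
  ext φ w j
  cases L with
  | nil => simp at hL
  | cons i' L' =>
    rw [zprod_cons, Module.End.mul_apply, zop_apply]
    simp only [LinearMap.zero_apply, Pi.zero_apply]
    refine Finset.sum_eq_zero fun a _ => ?_
    split_ifs
    · obtain ⟨t, ht, hq⟩ := exists_level n (w.length + 1)
      refine zprod_vanish φ t L' ?_ (a :: w) i' ?_
      · simp only [List.length_cons] at hL
        omega
      · have h2 : n < 2 ^ n := Nat.lt_two_pow_self
        simp only [List.length_cons]
        omega
    · rfl

/-- The (finite) nilpotent algebra generated by `zop i`, `0 ≤ i < n`. -/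
def NN (n : ℕ) : Submodule (ZMod 2) E :=
  Submodule.span (ZMod 2) (zprod '' {L : List (Fin n) | 1 ≤ L.length ∧ L.length ≤ 4 ^ n})

theorem zprod_mem {n : ℕ} (L : List (Fin n)) (hL : 1 ≤ L.length) : zprod L ∈ NN n := by
  by_cases h : L.length ≤ 4 ^ n
  · exact Submodule.subset_span ⟨L, ⟨hL, h⟩, rfl⟩
  · rw [zprod_eq_zero L (by omega)]
    exact Submodule.zero_mem _

theorem NN_mul {n : ℕ} {x y : E} (hx : x ∈ NN n) (hy : y ∈ NN n) : x * y ∈ NN n := by
  have h : NN n * NN n ≤ NN n := by
    rw [NN, Submodule.span_mul_span, Submodule.span_le]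
    rintro _ ⟨_, ⟨L, hL, rfl⟩, _, ⟨L', hL', rfl⟩, rfl⟩
    change zprod L * zprod L' ∈ NN n
    rw [← zprod_append]
    refine zprod_mem _ ?_
    have := hL.1
    rw [List.length_append]
    omega
  exact h (Submodule.mul_mem_mul hx hy)

instance finite_NN (n : ℕ) : Finite (NN n) := by
  have : Module.Finite (ZMod 2) (NN n) := by
    refine Module.Finite.span_of_finite (ZMod 2) (Set.Finite.image _ ?_)
    refine Set.Finite.subset (List.finite_length_le (Fin n) (4 ^ n)) ?_
    rintro L ⟨-, h⟩
    exact h
  exact Module.finite_of_finite (ZMod 2)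

/-- Units congruent to `1` modulo `NN n`. -/
def UN (n : ℕ) : Subgroup Eˣ where
  carrier := {x | (x : E) - 1 ∈ NN n ∧ ((x⁻¹ : Eˣ) : E) - 1 ∈ NN n}
  one_mem' := by
    simp
  mul_mem' := by
    rintro x y ⟨hx, hx'⟩ ⟨hy, hy'⟩
    have key : ∀ a b : E, a - 1 ∈ NN n → b - 1 ∈ NN n → a * b - 1 ∈ NN n := by
      intro a b ha hb
      have : a * b - 1 = (a - 1) * (b - 1) + (a - 1) + (b - 1) := by
        simp only [sub_mul, mul_sub, one_mul, mul_one]
        abel
      rw [this]
      exact Submodule.add_mem _ (Submodule.add_mem _ (NN_mul ha hb) ha) hb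
    refine ⟨?_, ?_⟩
    · rw [Units.val_mul]; exact key _ _ hx hy
    · rw [mul_inv_rev, Units.val_mul]; exact key _ _ hy' hx'
  inv_mem' := by
    rintro x ⟨hx, hx'⟩
    refine ⟨hx', ?_⟩
    rw [inv_inv]; exact hx

instance finite_UN (n : ℕ) : Finite (UN n) := by
  refine Finite.of_injective (fun x : UN n => (⟨((x : Eˣ) : E) - 1, x.2.1⟩ : NN n)) ?_
  intro x y hxy
  have h : ((x : Eˣ) : E) - 1 = ((y : Eˣ) : E) - 1 := congrArg Subtype.val hxy
  have h2 : ((x : Eˣ) : E) = ((y : Eˣ) : E) := by
    have := congrArg (fun z => z + 1) h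
    simpa using this
  exact Subtype.ext (Units.ext h2)

theorem conj_mem (n j : ℕ) (hj : j < n) : tU ^ j * uU * (tU ^ j)⁻¹ ∈ UN n := by
  have h1 : shift (j : ℤ) * shift (-(j : ℤ)) = 1 := by
    rw [← shift_add, add_neg_cancel, shift_zero]
  have h2 : shift (j : ℤ) * (1 + zop 0) * shift (-(j : ℤ)) - 1 = zop (j : ℤ) := by
    rw [mul_add, mul_one, add_mul, h1, shift_mul_zop_mul_shift]
    abel
  have h3 : zop (j : ℤ) ∈ NN n := by
    have := zprod_mem (n := n) [⟨j, hj⟩] (by simp)
    simpa [zprod] using this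
  refine ⟨?_, ?_⟩
  · rw [Units.val_mul, Units.val_mul, tU_pow, tU_pow_inv, uU_val, h2]
    exact h3
  · rw [mul_inv_rev, mul_inv_rev, inv_inv, Units.val_mul, Units.val_mul, tU_pow, tU_pow_inv,
      uU_inv_val, ← mul_assoc, h2]
    exact h3

end Pool.Agent.MPa4afae
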