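import Mathlib
import Pool.Agent.Lib.MP_a4afae_al.Ops
import Pool.Agent.Lib.MP_a4afae_al.FinDim

/-!
Exponential growth of the quotients of the group algebra by powers of the augmentation ideal.
-/

set_option autoImplicit false

namespace Pool.Agent.MPa4afae

/-- Translation by one on functions on the integers. -/
def sh : Module.End (ZMod 2) (ℤ → ZMod 2) where
  toFun f := fun j => f (j + 1)
  map_add' _ _ := rfl
  map_smul' _ _ := rfl

theorem sh_pow_apply (n : ℕ) (f : ℤ → ZMod 2) (j : ℤ) : (sh ^ n) f j = f (j + n) := by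
  induction n generalizing j with
  | zero => simp
  | succ n ih =>
    rw [pow_succ', Module.End.mul_apply]
    change (sh ^ n) f (j + 1) = _
    rw [ih]
    congr 1
    push_cast
    ring

theorem F_add_self (x : Module.End (ZMod 2) (ℤ → ZMod 2)) : x + x = 0 := by
  rw [← two_smul (ZMod 2) x]
  have : (2 : ZMod 2) = 0 := rfl
  rw [this, zero_smul]

/-- The difference operator. -/
def dl : Module.End (ZMod 2) (ℤ → ZMod 2) := sh - 1

theorem dl_pow_two_pow (s : ℕ) : dl ^ (2 ^ s) = sh ^ (2 ^ s) - 1 := by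
  induction s with
  | zero => simp [dl]
  | succ s ih =>
    rw [pow_succ, pow_mul, ih, pow_two, sub_mul, mul_sub, mul_sub, one_mul, mul_one, one_mul,
      ← pow_two, ← pow_mul]
    have h1 : sh ^ (2 ^ s) = -sh ^ (2 ^ s) := by
      rw [eq_neg_iff_add_eq_zero]; exact F_add_self _
    have h2 : (1 : Module.End (ZMod 2) (ℤ → ZMod 2)) = -1 := by
      rw [eq_neg_iff_add_eq_zero]; exact F_add_self _
    have h3 : sh ^ (2 ^ s) + sh ^ (2 ^ s) = 0 := F_add_self _
    have h4 : (1 : Module.End (ZMod 2) (ℤ → ZMod 2)) + 1 = 0 := F_add_self _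
    calc sh ^ (2 ^ s * 2) - sh ^ (2 ^ s) - (sh ^ (2 ^ s) - 1)
        = sh ^ (2 ^ s * 2) - (sh ^ (2 ^ s) + sh ^ (2 ^ s)) + (1 + 1) - 1 := by abel
      _ = sh ^ (2 ^ s * 2) - 1 := by rw [h3, h4, sub_zero, add_zero]

theorem dl_pow_of_periodic (f : ℤ → ZMod 2) (Q m : ℕ) (hQ : ∃ s, Q = 2 ^ s)
    (hf : ∀ j, f (j + 4 * (Q : ℤ)) = f j) (hm : 4 * Q ≤ m) : (dl ^ m) f = 0 := by
  obtain ⟨s, rfl⟩ := hQ
  have h1 : (dl ^ (2 ^ (s + 2))) f = 0 := by
    rw [dl_pow_two_pow]
    funext j
    rw [LinearMap.sub_apply, Pi.sub_apply, sh_pow_apply]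
    have := hf j
    simp only [Module.End.one_apply, Pi.zero_apply]
    rw [sub_eq_zero, ← this]
    congr 1
    push_cast
    ring
  have h2 : m = (m - 2 ^ (s + 2)) + 2 ^ (s + 2) := by
    have : 2 ^ (s + 2) = 4 * 2 ^ s := by ring
    omega
  rw [h2, pow_add, Module.End.mul_apply, h1, map_zero]

/-- The filtration of `V`. -/
def Fil (d : ℕ) : Submodule (ZMod 2) V where
  carrier := {φ | ∀ w : List Bool, (dl ^ (d - D w.length)) (φ w) = 0}
  add_mem' := by
    intro φ ψ hφ hψ w
    rw [Pi.add_apply, map_add, hφ w, hψ w, add_zero]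
  zero_mem' := by
    intro w
    rw [Pi.zero_apply, map_zero]
  smul_mem' := by
    intro c φ hφ w
    rw [Pi.smul_apply, map_smul, hφ w, smul_zero]

theorem mem_Fil {d : ℕ} {φ : V} : φ ∈ Fil d ↔ ∀ w : List Bool, (dl ^ (d - D w.length)) (φ w) = 0 :=
  Iff.rfl

theorem dl_pow_mono {f : ℤ → ZMod 2} {a b : ℕ} (hab : a ≤ b) (h : (dl ^ a) f = 0) :
    (dl ^ b) f = 0 := by
  obtain ⟨c, rfl⟩ := Nat.exists_eq_add_of_le hab
  rw [add_comm, pow_add, Module.End.mul_apply, h, map_zero]

theorem Fil_mono {a b : ℕ} (hab : a ≤ b) : Fil a ≤ Fil b := by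
  intro φ hφ w
  exact dl_pow_mono (Nat.sub_le_sub_right hab _) (hφ w)

theorem Fil_zero {φ : V} (h : φ ∈ Fil 0) : φ = 0 := by
  funext w
  have := h w
  rw [Nat.zero_sub, pow_zero] at this
  exact this

/-- `g - 1` lowers the filtration. -/
def Good (g : E) : Prop := ∀ d : ℕ, ∀ φ ∈ Fil (d + 1), g φ - φ ∈ Fil d

theorem Good.stable {g : E} (hg : Good g) {d : ℕ} {φ : V} (hφ : φ ∈ Fil d) : g φ ∈ Fil d := by
  cases d with
  | zero =>
    rw [Fil_zero hφ, map_zero]
    exact Submodule.zero_mem _
  | succ d =>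
    have h := Submodule.add_mem _ (Fil_mono (Nat.le_succ d) (hg d φ hφ)) hφ
    simpa using h

theorem Good.mul {g h : E} (hg : Good g) (hh : Good h) : Good (g * h) := by
  intro d φ hφ
  have h1 : (g * h) φ - φ = g (h φ - φ) + (g φ - φ) := by
    rw [Module.End.mul_apply, map_sub]; abel
  rw [h1]
  exact Submodule.add_mem _ (hg.stable (hh d φ hφ)) (hg d φ hφ)

theorem good_one : Good 1 := by
  intro d φ _
  simp

theorem Good.inv {g : Eˣ} (hg : Good (g : E)) : Good ((g⁻¹ : Eˣ) : E) := by
  have hinv : ∀ φ : V, ((g⁻¹ : Eˣ) : E) ((g : E) φ) = φ := by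
    intro φ
    rw [← Module.End.mul_apply, Units.inv_mul, Module.End.one_apply]
  have hst : ∀ d : ℕ, ∀ φ ∈ Fil d, ((g⁻¹ : Eˣ) : E) φ ∈ Fil d := by
    intro d
    induction d with
    | zero =>
      intro φ hφ
      rw [Fil_zero hφ, map_zero]
      exact Submodule.zero_mem _
    | succ d ih =>
      intro φ hφ
      have h1 : ((g⁻¹ : Eˣ) : E) φ = φ - ((g⁻¹ : Eˣ) : E) ((g : E) φ - φ) := by
        rw [map_sub, hinv]; abel
      rw [h1]
      exact Submodule.sub_mem _ hφ (Fil_mono (Nat.le_succ d) (ih _ (hg d φ hφ)))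
  intro d φ hφ
  have h1 : ((g⁻¹ : Eˣ) : E) φ - φ = - ((g⁻¹ : Eˣ) : E) ((g : E) φ - φ) := by
    rw [map_sub, hinv]; abel
  rw [h1]
  exact Submodule.neg_mem _ (hst d _ (hg d φ hφ))

theorem good_tU : Good (tU : E) := by
  intro d φ hφ w
  have h1 : ((tU : E) φ - φ) w = dl (φ w) := rfl
  rw [h1]
  have h2 := hφ w
  by_cases h : D w.length ≤ d
  · rw [show d + 1 - D w.length = (d - D w.length) + 1 by omega, pow_succ,
      Module.End.mul_apply] at h2
    exact h2
  · rw [show d + 1 - D w.length = 0 by omega, pow_zero, Module.End.one_apply] at h2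
    rw [h2, map_zero, map_zero]

theorem good_uU : Good (uU : E) := by
  intro d φ hφ w
  have h1 : ((uU : E) φ - φ) = zop 0 φ := by
    rw [uU_val, LinearMap.add_apply, Module.End.one_apply]; abel
  rw [h1]
  by_cases h : D (w.length + 1) ≤ d
  · -- periodic function
    have hD := D_succ w.length
    refine dl_pow_of_periodic _ (q (w.length + 1)) _ (q_pow _) ?_ ?_
    · intro j
      rw [zop_apply, zop_apply]
      refine Finset.sum_congr rfl fun a _ => ?_
      rw [add_zero, add_zero]
      simp only [gate_add_period]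
    · omega
  · have h3 : zop 0 φ w = 0 := by
      funext j
      rw [zop_apply]
      refine Finset.sum_eq_zero fun a _ => ?_
      have h2 := hφ (a :: w)
      rw [List.length_cons, show d + 1 - D (w.length + 1) = 0 by omega, pow_zero,
        Module.End.one_apply] at h2
      rw [h2]
      simp
    rw [h3, map_zero]

/-- The example group. -/
abbrev GG : Type := ↥(Subgroup.closure ({tU, uU} : Set Eˣ))

theorem good_GG (g : GG) : Good ((g : Eˣ) : E) := by
  obtain ⟨g, hg⟩ := g
  change Good (g : E)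
  induction hg using Subgroup.closure_induction with
  | mem x hx =>
    rcases hx with rfl | hx
    · exact good_tU
    · rw [Set.mem_singleton_iff] at hx
      subst hx
      exact good_uU
  | one => exact good_one
  | mul x y _ _ hx hy => rw [Units.val_mul]; exact hx.mul hy
  | inv x _ hx => exact hx.inv

/-- The action of the group algebra. -/
noncomputable def act : MonoidAlgebra (ZMod 2) GG →ₐ[ZMod 2] E :=
  MonoidAlgebra.lift (ZMod 2) E GG
    ((Units.coeHom E).comp (Subgroup.subtype (Subgroup.closure ({tU, uU} : Set Eˣ))))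

theorem act_of (g : GG) : act (MonoidAlgebra.of (ZMod 2) GG g) = ((g : Eˣ) : E) := by
  rw [act, MonoidAlgebra.lift_of]
  rfl

theorem act_aug (d : ℕ) (φ : V) (hφ : φ ∈ Fil (d + 1)) :
    ∀ a ∈ aug (ZMod 2) GG, act a φ ∈ Fil d := by
  intro a ha
  induction ha using Submodule.span_induction with
  | mem x hx =>
    obtain ⟨g, rfl⟩ := hx
    change act (MonoidAlgebra.of (ZMod 2) GG g - 1) φ ∈ Fil d
    rw [map_sub, map_one, act_of, LinearMap.sub_apply, Module.End.one_apply]
    exact good_GG g d φ hφ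
  | zero => rw [map_zero]; exact Submodule.zero_mem _
  | add x y _ _ hx hy =>
    rw [map_add, LinearMap.add_apply]; exact Submodule.add_mem _ hx hy
  | smul c x _ hx =>
    rw [map_smul, LinearMap.smul_apply]; exact Submodule.smul_mem _ c hx

theorem act_aug_pow (n : ℕ) : ∀ (d : ℕ) (φ : V), φ ∈ Fil (n + d) →
    ∀ a ∈ aug (ZMod 2) GG ^ n, act a φ ∈ Fil d := by
  induction n with
  | zero =>
    intro d φ hφ a ha
    rw [pow_zero] at ha
    obtain ⟨r, rfl⟩ := Submodule.mem_one.1 ha
    rw [AlgHom.commutes, Module.algebraMap_end_apply]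
    rw [zero_add] at hφ
    exact Submodule.smul_mem _ _ hφ
  | succ n ih =>
    intro d φ hφ a ha
    rw [pow_succ] at ha
    induction ha using Submodule.mul_induction_on' with
    | mem_mul_mem x hx y hy =>
      rw [map_mul, Module.End.mul_apply]
      refine ih d _ ?_ x hx
      refine act_aug (n + d) φ ?_ y hy
      rw [show n + d + 1 = n + 1 + d by ring]
      exact hφ
    | add x _ y _ hx hy =>
      rw [map_add, LinearMap.add_apply]; exact Submodule.add_mem _ hx hy

/-- Indicator functions. -/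
def ind (w : List Bool) : V := fun w' _ => if w' = w then 1 else 0

theorem ind_mem (w : List Bool) (n : ℕ) (h : D w.length ≤ n) : ind w ∈ Fil (n + 1) := by
  intro w'
  by_cases hw : w' = w
  · subst hw
    rw [show n + 1 - D w'.length = (n - D w'.length) + 1 by omega, pow_succ, Module.End.mul_apply]
    have : dl (ind w' w') = 0 := by
      funext j
      simp [dl, sh, ind]
    rw [this, map_zero]
  · have : ind w w' = 0 := by
      funext j
      simp [ind, hw]
    rw [this, map_zero]

/-- The generator `t` of the group. -/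
def tG : GG := ⟨tU, Subgroup.subset_closure (Or.inl rfl)⟩

/-- The generator `u` of the group. -/
def uG : GG := ⟨uU, Subgroup.subset_closure (Or.inr rfl)⟩

/-- Position of the open gate. -/
def pos (l : ℕ) (a : Bool) : ℕ := 2 * q (l + 1) + a.toNat

theorem gate_pos (l : ℕ) (a b : Bool) : gate l b (pos l a) ↔ b = a := by
  constructor
  · intro h
    unfold gate pos at h
    push_cast at h
    rw [show (2 * (q (l + 1) : ℤ) + (a.toNat : ℤ) - (2 * (q (l + 1) : ℤ) + (b.toNat : ℤ))) =
      (a.toNat : ℤ) - (b.toNat : ℤ) by ring] at h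
    have hq := q_pos (l + 1)
    have h2 := Int.eq_zero_of_abs_lt_dvd h (by
      have ha : a.toNat ≤ 1 := Bool.toNat_le a
      have hb : b.toNat ≤ 1 := Bool.toNat_le b
      rw [abs_lt]; constructor <;> omega)
    cases a <;> cases b <;> simp_all
  · rintro rfl
    unfold gate pos
    push_cast
    rw [sub_self]
    exact dvd_zero _

/-- The element of the group algebra reaching the word `w`. -/
noncomputable def alp : List Bool → MonoidAlgebra (ZMod 2) GG
  | [] => 1
  | a :: w => alp w * (MonoidAlgebra.of (ZMod 2) GG (tG ^ pos w.length a) *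
      (MonoidAlgebra.of (ZMod 2) GG uG - 1))

theorem act_alp (w : List Bool) : ∀ φ : V, act (alp w) φ [] 0 = φ w 0 := by
  induction w with
  | nil => intro φ; simp [alp]
  | cons a w ih =>
    intro φ
    rw [alp, map_mul, Module.End.mul_apply, ih, map_mul, act_of, map_sub, map_one, act_of]
    have h1 : (((tG ^ pos w.length a : GG) : Eˣ) : E) = shift (pos w.length a) := by
      rw [Subgroup.coe_pow]
      exact tU_pow _
    have h2 : (((uG : GG) : Eˣ) : E) - 1 = zop 0 := by
      change (1 + zop 0) - 1 = zop 0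
      abel
    rw [h1, h2, Module.End.mul_apply, shift_apply, zop_apply, zero_add, add_zero, neg_zero]
    simp only [gate_pos]
    simp

/-- The family of functionals detecting the words of length `k`. -/
noncomputable def Phi (k : ℕ) : MonoidAlgebra (ZMod 2) GG →ₗ[ZMod 2] (List.Vector Bool k → ZMod 2) where
  toFun a := fun w => act a (ind w.1) [] 0
  map_add' a b := by
    funext w
    rw [map_add]
    rfl
  map_smul' c a := by
    funext w
    rw [map_smul]
    rfl

theorem Phi_apply (k : ℕ) (a : MonoidAlgebra (ZMod 2) GG) (w : List.Vector Bool k) :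
    Phi k a w = act a (ind w.1) [] 0 := rfl

theorem Phi_surjective (k : ℕ) : Function.Surjective (Phi k) := by
  classical
  intro f
  refine ⟨∑ w : List.Vector Bool k, f w • alp w.1, ?_⟩
  have key : ∀ w v : List.Vector Bool k, Phi k (alp w.1) v = if w = v then 1 else 0 := by
    intro w v
    rw [Phi_apply, act_alp]
    by_cases h : w = v
    · subst h
      simp [ind]
    · have h2 : w.1 ≠ v.1 := fun h3 => h (Subtype.ext h3)
      simp [ind, h, h2]
  rw [map_sum]
  funext v
  rw [Finset.sum_apply, Finset.sum_eq_single v]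
  · rw [map_smul, Pi.smul_apply, key, if_pos rfl, smul_eq_mul, mul_one]
  · intro w _ hw
    rw [map_smul, Pi.smul_apply, key, if_neg hw, smul_zero]
  · intro h
    exact absurd (Finset.mem_univ v) h

theorem Phi_vanish (k n : ℕ) (h : D k ≤ n) : aug (ZMod 2) GG ^ (n + 1) ≤ LinearMap.ker (Phi k) := by
  intro a ha
  rw [LinearMap.mem_ker]
  funext w
  rw [Phi_apply]
  have h1 : ind w.1 ∈ Fil (n + 1 + 0) := ind_mem w.1 n (by rw [w.2]; exact h)
  have h2 := act_aug_pow (n + 1) 0 (ind w.1) h1 a ha
  rw [Fil_zero h2]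
  rfl

theorem GG_fg : Group.FG GG := by
  have : Finite (({tU, uU} : Set Eˣ) : Type) := Set.Finite.to_subtype (Set.toFinite _)
  exact Group.closure_finite_fg _

theorem finrank_ge (k n : ℕ) (h : D k ≤ n) :
    2 ^ k ≤ Module.finrank (ZMod 2) (MonoidAlgebra (ZMod 2) GG ⧸ (aug (ZMod 2) GG ^ (n + 1))) := by
  have hfin := finite_quotient (k := ZMod 2) GG_fg n
  have hsurj : Function.Surjective (Submodule.liftQ _ (Phi k) (Phi_vanish k n h)) := by
    intro f
    obtain ⟨a, ha⟩ := Phi_surjective k f
    exact ⟨Submodule.Quotient.mk a, by rw [Submodule.liftQ_apply]; exact ha⟩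
  have h1 := LinearMap.finrank_le_finrank_of_surjective hsurj
  rw [Module.finrank_pi, card_vector, Fintype.card_bool] at h1
  exact h1

end Pool.Agent.MPa4afae
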