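import Mathlib

/-!
An invariant mean on a group generated by `t, u` such that for every `n` the conjugates
`t ^ j * u * (t ^ j)⁻¹`, `j < n`, lie in a finite subgroup.
-/

set_option autoImplicit false

open Filter Topology

namespace Pool.Agent.MPa4afae

/-- Abstract ultralimit construction: from a sequence of finitely additive probabilities which are
asymptotically invariant under a generating set we get an invariant mean. -/
theorem exists_mean_of_seq {G : Type} [Group G] (S : Set G) (hS : Subgroup.closure S = ⊤)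
    (m : ℕ → Set G → ℝ)
    (h0 : ∀ n A, 0 ≤ m n A) (h1 : ∀ n, m n Set.univ = 1)
    (hadd : ∀ n (A B : Set G), Disjoint A B → m n (A ∪ B) = m n A + m n B)
    (hinv : ∀ s ∈ S, ∀ A : Set G,
      Tendsto (fun n => m n ((fun x => s * x) ⁻¹' A) - m n A) atTop (𝓝 0)) :
    ∃ μ : Set G → ℝ, (∀ S, 0 ≤ μ S) ∧ μ Set.univ = 1 ∧
        (∀ A B : Set G, Disjoint A B → μ (A ∪ B) = μ A + μ B) ∧
        ∀ (g : G) (S : Set G), μ ((fun x => g * x) ⁻¹' S) = μ S := by
  have hle : ∀ n A, m n A ≤ 1 := by
    intro n A
    have := hadd n A Aᶜ disjoint_compl_right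
    rw [Set.union_compl_self, h1] at this
    linarith [h0 n Aᶜ]
  let u : Ultrafilter ℕ := hyperfilter ℕ
  have hu : (u : Filter ℕ) ≤ atTop := Nat.hyperfilter_le_atTop
  have hlim : ∀ A : Set G, ∃ x : ℝ, Tendsto (fun n => m n A) u (𝓝 x) := by
    intro A
    obtain ⟨x, -, hx⟩ := isCompact_Icc.ultrafilter_le_nhds' (u.map (fun n => m n A))
      (s := Set.Icc (0:ℝ) 1) (by
        rw [Ultrafilter.mem_map]
        exact Filter.Eventually.of_forall (fun n => ⟨h0 n A, hle n A⟩))
    exact ⟨x, hx⟩
  choose μ hμ using hlim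
  refine ⟨μ, ?_, ?_, ?_, ?_⟩
  · intro A
    exact ge_of_tendsto' (hμ A) (fun n => h0 n A)
  · have h := hμ Set.univ
    simp only [h1] at h
    exact tendsto_nhds_unique h tendsto_const_nhds
  · intro A B hAB
    have h := hμ (A ∪ B)
    simp only [hadd _ A B hAB] at h
    exact tendsto_nhds_unique h ((hμ A).add (hμ B))
  · -- the set of good elements is a subgroup
    have key : ∀ g ∈ Subgroup.closure S, ∀ A : Set G, μ ((fun x => g * x) ⁻¹' A) = μ A := by
      intro g hg
      induction hg using Subgroup.closure_induction with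
      | mem s hs =>
        intro A
        have h := hinv s hs A
        have h2 := (hμ ((fun x => s * x) ⁻¹' A)).sub (hμ A)
        have h3 := tendsto_nhds_unique h2 (h.mono_left hu)
        linarith
      | one => intro A; simp
      | mul x y _ _ hx hy =>
        intro A
        have : (fun z => x * y * z) ⁻¹' A = (fun z => y * z) ⁻¹' ((fun z => x * z) ⁻¹' A) := by
          ext z; simp [mul_assoc]
        rw [this, hy, hx]
      | inv x _ hx =>
        intro A
        have h := hx ((fun z => x⁻¹ * z) ⁻¹' A)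
        have : (fun z => x * z) ⁻¹' ((fun z => x⁻¹ * z) ⁻¹' A) = A := by
          ext z; simp
        rw [this] at h
        exact h.symm
    intro g A
    exact key g (by rw [hS]; trivial) A

theorem exists_mean {G : Type} [Group G] (t u : G) (hgen : Subgroup.closure {t, u} = ⊤)
    (H : ℕ → Subgroup G) (hfin : ∀ n, Finite (H n))
    (hH : ∀ n, ∀ j < n, t ^ j * u * (t ^ j)⁻¹ ∈ H n) :
    ∃ μ : Set G → ℝ, (∀ S, 0 ≤ μ S) ∧ μ Set.univ = 1 ∧
        (∀ A B : Set G, Disjoint A B → μ (A ∪ B) = μ A + μ B) ∧
        ∀ (g : G) (S : Set G), μ ((fun x => g * x) ⁻¹' S) = μ S := by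
  classical
  -- averages over `H n`
  let a : ℕ → Set G → ℝ := fun n A =>
    (Nat.card {h : H n // (h : G) ∈ A} : ℝ) / (Nat.card (H n) : ℝ)
  have hcard : ∀ n, (0 : ℝ) < (Nat.card (H n) : ℝ) := by
    intro n
    have := hfin n
    exact_mod_cast Nat.card_pos
  have a0 : ∀ n A, 0 ≤ a n A := fun n A => div_nonneg (Nat.cast_nonneg _) (hcard n).le
  have a1 : ∀ n, a n Set.univ = 1 := by
    intro n
    have : Nat.card {h : H n // (h : G) ∈ (Set.univ : Set G)} = Nat.card (H n) :=
      Nat.card_congr (Equiv.subtypeUnivEquiv (fun _ => trivial))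
    simp only [a, this]
    exact div_self (hcard n).ne'
  have aadd : ∀ n (A B : Set G), Disjoint A B → a n (A ∪ B) = a n A + a n B := by
    intro n A B hAB
    have := hfin n
    simp only [a, ← add_div]
    congr 1
    have h := Nat.card_congr (subtypeOrEquiv (α := H n) (fun h => (h : G) ∈ A)
      (fun h => (h : G) ∈ B) (by
        rw [Pi.disjoint_iff]
        intro h
        rw [Prop.disjoint_iff]
        intro hc
        exact Set.disjoint_left.1 hAB hc.1 hc.2))
    rw [Nat.card_sum] at h
    exact_mod_cast h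
  have aH : ∀ n (g : G), g ∈ H n → ∀ A : Set G, a n ((fun x => g * x) ⁻¹' A) = a n A := by
    intro n g hg A
    simp only [a]
    congr 2
    refine Nat.card_congr (Equiv.subtypeEquiv (Equiv.mulLeft (⟨g, hg⟩ : H n)) ?_)
    intro h
    simp
  have ale : ∀ n A, a n A ≤ 1 := by
    intro n A
    have := aadd n A Aᶜ disjoint_compl_right
    rw [Set.union_compl_self, a1] at this
    linarith [a0 n Aᶜ]
  let m : ℕ → Set G → ℝ := fun n A =>
    (∑ j ∈ Finset.range (n + 1), a (n + 1) ((fun x => (t ^ j)⁻¹ * x) ⁻¹' A)) / ((n : ℝ) + 1)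
  have hn1 : ∀ n : ℕ, (0 : ℝ) < (n : ℝ) + 1 := fun n => by positivity
  apply exists_mean_of_seq {t, u} hgen m
  · intro n A
    exact div_nonneg (Finset.sum_nonneg fun j _ => a0 _ _) (hn1 n).le
  · intro n
    simp only [m, Set.preimage_univ, a1]
    simp only [Finset.sum_const, Finset.card_range, nsmul_eq_mul, mul_one]
    push_cast
    exact div_self (hn1 n).ne'
  · intro n A B hAB
    simp only [m, ← add_div, ← Finset.sum_add_distrib]
    congr 1
    refine Finset.sum_congr rfl fun j _ => ?_
    rw [Set.preimage_union]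
    exact aadd _ _ _ (hAB.preimage _)
  · intro s hs A
    rcases hs with rfl | hs
    · -- invariance under `t`
      have key : ∀ n, m n ((fun x => s * x) ⁻¹' A) - m n A =
          (a (n + 1) ((fun x => s * x) ⁻¹' A) -
            a (n + 1) ((fun x => (s ^ n)⁻¹ * x) ⁻¹' A)) / ((n : ℝ) + 1) := by
        intro n
        simp only [m]
        rw [← sub_div]
        congr 1
        rw [Finset.sum_range_succ', Finset.sum_range_succ]
        have : ∀ j, (fun x => (s ^ (j + 1))⁻¹ * x) ⁻¹' ((fun x => s * x) ⁻¹' A)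
            = (fun x => (s ^ j)⁻¹ * x) ⁻¹' A := by
          intro j
          ext x
          simp only [Set.mem_preimage]
          rw [show s * ((s ^ (j + 1))⁻¹ * x) = (s ^ j)⁻¹ * x by
            rw [pow_succ]; group]
        simp only [this]
        simp only [pow_zero, inv_one, one_mul, Set.preimage_id']
        ring
      simp only [key]
      rw [Metric.tendsto_atTop]
      intro ε hε
      obtain ⟨N, hN⟩ := exists_nat_gt (1 / ε)
      refine ⟨N, fun n hn => ?_⟩
      rw [dist_zero_right, Real.norm_eq_abs, abs_div, abs_of_pos (hn1 n), div_lt_iff₀ (hn1 n)]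
      have h1 : |a (n + 1) ((fun x => s * x) ⁻¹' A) -
            a (n + 1) ((fun x => (s ^ n)⁻¹ * x) ⁻¹' A)| ≤ 1 := by
        rw [abs_le]
        constructor <;> linarith [a0 (n + 1) ((fun x => s * x) ⁻¹' A),
          ale (n + 1) ((fun x => s * x) ⁻¹' A), a0 (n + 1) ((fun x => (s ^ n)⁻¹ * x) ⁻¹' A),
          ale (n + 1) ((fun x => (s ^ n)⁻¹ * x) ⁻¹' A)]
      have h2 : (N : ℝ) ≤ n := by exact_mod_cast hn
      have h3 : 1 < ε * N := by
        rw [div_lt_iff₀ hε] at hN
        linarith
      nlinarith
    · -- invariance under `u`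
      rw [Set.mem_singleton_iff] at hs
      subst hs
      have key : ∀ n, m n ((fun x => s * x) ⁻¹' A) - m n A = 0 := by
        intro n
        simp only [m]
        rw [← sub_div, ← Finset.sum_sub_distrib]
        have : ∀ j ∈ Finset.range (n + 1),
            a (n + 1) ((fun x => (t ^ j)⁻¹ * x) ⁻¹' ((fun x => s * x) ⁻¹' A)) -
            a (n + 1) ((fun x => (t ^ j)⁻¹ * x) ⁻¹' A) = 0 := by
          intro j hj
          have hmem := hH (n + 1) j (Finset.mem_range.1 hj)
          have h2 := aH (n + 1) _ hmem ((fun x => (t ^ j)⁻¹ * x) ⁻¹' A)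
          rw [← h2, sub_eq_zero]
          congr 1
          ext x
          simp only [Set.mem_preimage]
          rw [show (t ^ j)⁻¹ * (t ^ j * s * (t ^ j)⁻¹ * x) = s * ((t ^ j)⁻¹ * x) by group]
        rw [Finset.sum_eq_zero this]
        simp
      simp only [key]
      exact tendsto_const_nhds

end Pool.Agent.MPa4afae
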